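import Mathlib

set_option autoImplicit false
set_option linter.unusedSectionVars false
set_option linter.unusedVariables false
set_option maxHeartbeats 4000000

/-! # Prime powers in residue classes -/

namespace Pool.Agent.T2h81.HV

open Finset

/-- the class `a` modulo `d` contains no prime power up to `Z` -/
def NoPP (d : ℕ) (Z : ℝ) (a : ℕ) : Prop := ∀ n : ℕ, (n : ℝ) ≤ Z → n ≡ a [MOD d] → ¬ IsPrimePow n

/-- the perfect powers in an interval -/
lemma powers_interval (A N k : ℕ) (hk : 2 ≤ k) (S : Finset ℕ)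
    (hS : ∀ x ∈ S, A < x ^ k ∧ x ^ k ≤ A + N) : S.card ≤ Nat.sqrt N + 1 := by
  rcases S.eq_empty_or_nonempty with h | h
  · rw [h]; simp
  obtain ⟨x₀, hx₀, hmin⟩ := S.exists_min_image id h
  have hsub : S ⊆ Finset.Icc x₀ (x₀ + Nat.sqrt N) := by
    intro x hx
    rw [Finset.mem_Icc]
    have h1 : x₀ ≤ x := hmin x hx
    refine ⟨h1, ?_⟩
    obtain ⟨t, ht⟩ := Nat.exists_eq_add_of_le h1
    subst ht
    have h2 : t ^ k + x₀ ^ k ≤ (x₀ + t) ^ k := by
      have := pow_add_pow_le (Nat.zero_le t) (Nat.zero_le x₀) (show k ≠ 0 by omega)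
      rw [add_comm x₀ t]
      exact this
    have h3 := (hS _ hx).2
    have h4 := (hS _ hx₀).1
    have h5 : t ^ k ≤ N := by omega
    have h6 : t ^ 2 ≤ N := by
      rcases Nat.eq_zero_or_pos t with h0 | h0
      · rw [h0]; simp
      · exact (Nat.pow_le_pow_right h0 hk).trans h5
    have h7 : t ≤ Nat.sqrt N := by
      rw [Nat.le_sqrt']
      exact h6
    omega
  calc S.card ≤ (Finset.Icc x₀ (x₀ + Nat.sqrt N)).card := card_le_card hsub
    _ = Nat.sqrt N + 1 := by rw [Nat.card_Icc]; omega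

/-- the classes with a prime power of exponent at least two, in an interval -/
theorem bad_count (d M N J K : ℕ) (hd : 0 < d) (hMN : M + N ≤ d) (S : Finset ℕ)
    (hS : ∀ b ∈ S, M < b ∧ b ≤ M + N ∧ ∃ x k n : ℕ, 2 ≤ k ∧ k ≤ K ∧ n = x ^ k ∧ n ≡ b [MOD d] ∧
      1 ≤ n ∧ n < J * d) :
    S.card ≤ J * ((K + 1) * (Nat.sqrt N + 1)) := by
  classical
  have hsub : S ⊆ (range J).biUnion fun j => (range (K + 1)).biUnion fun k =>
      S.filter (fun b => 2 ≤ k ∧ ∃ x : ℕ, x ^ k = j * d + b) := by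
    intro b hb
    obtain ⟨hb1, hb2, x, k, n, hk, hkK, hn, hmod, hn1, hnJ⟩ := hS b hb
    have hbd : b ≤ d := hb2.trans hMN
    have hb0 : 0 < b := by omega
    -- `n = j d + b`
    have hbn : b ≤ n := by
      by_contra hcon
      push Not at hcon
      have h1 : d ∣ b - n := (Nat.modEq_iff_dvd' hcon.le).1 hmod
      have h2 := Nat.le_of_dvd (by omega) h1
      omega
    have hdvd : d ∣ n - b := (Nat.modEq_iff_dvd' hbn).1 hmod.symm
    obtain ⟨j, hj⟩ := hdvd
    have hnj : n = j * d + b := by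
      have : n - b = d * j := hj
      rw [mul_comm] at this
      omega
    have hjJ : j < J := by
      have : j * d < J * d := by omega
      exact Nat.lt_of_mul_lt_mul_right this
    rw [mem_biUnion]
    refine ⟨j, mem_range.2 hjJ, ?_⟩
    rw [mem_biUnion]
    refine ⟨k, mem_range.2 (by omega), ?_⟩
    rw [mem_filter]
    exact ⟨hb, hk, x, by rw [← hn, hnj]⟩
  have hone : ∀ j k : ℕ, (S.filter (fun b => 2 ≤ k ∧ ∃ x : ℕ, x ^ k = j * d + b)).card ≤
      Nat.sqrt N + 1 := by
    intro j k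
    by_cases hk : 2 ≤ k
    · have hex : ∀ b ∈ S.filter (fun b => 2 ≤ k ∧ ∃ x : ℕ, x ^ k = j * d + b), ∃ x : ℕ,
          x ^ k = j * d + b := fun b hb => ((mem_filter.1 hb).2).2
      choose! g hg using hex
      rw [← card_image_of_injOn (s := S.filter (fun b => 2 ≤ k ∧ ∃ x : ℕ, x ^ k = j * d + b))
        (f := g) ?_]
      · apply powers_interval (j * d + M) N k hk
        intro x hx
        obtain ⟨b, hb, rfl⟩ := mem_image.1 hx
        rw [hg b hb]
        obtain ⟨hb1, hb2, -⟩ := hS b (mem_filter.1 hb).1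
        constructor <;> omega
      · intro b hb b' hb' hbb
        have h1 := hg b hb
        have h2 := hg b' hb'
        have hbb' : g b = g b' := hbb
        rw [hbb'] at h1
        omega
    · have : S.filter (fun b => 2 ≤ k ∧ ∃ x : ℕ, x ^ k = j * d + b) = ∅ := by
        apply filter_false_of_mem
        intro b _ h
        exact hk h.1
      rw [this]; simp
  calc S.card ≤ _ := card_le_card hsub
    _ ≤ ∑ j ∈ range J, ((range (K + 1)).biUnion fun k =>
        S.filter (fun b => 2 ≤ k ∧ ∃ x : ℕ, x ^ k = j * d + b)).card := card_biUnion_le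
    _ ≤ ∑ j ∈ range J, (K + 1) * (Nat.sqrt N + 1) := by
        apply sum_le_sum
        intro j _
        calc _ ≤ ∑ k ∈ range (K + 1), (S.filter (fun b => 2 ≤ k ∧ ∃ x : ℕ, x ^ k = j * d + b)).card :=
              card_biUnion_le
          _ ≤ ∑ k ∈ range (K + 1), (Nat.sqrt N + 1) := sum_le_sum fun k _ => hone j k
          _ = _ := by rw [sum_const, card_range, smul_eq_mul]
    _ = _ := by rw [sum_const, card_range, smul_eq_mul]

/-- exponents of powers -/
lemma expo_le (x k n K : ℕ) (hx : 2 ≤ x) (hn : n = x ^ k) (hK : n < 2 ^ (K + 1)) : k ≤ K := by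
  have h1 : 2 ^ k ≤ x ^ k := Nat.pow_le_pow_left hx k
  have h2 : 2 ^ k < 2 ^ (K + 1) := by omega
  have := (Nat.pow_lt_pow_iff_right (by norm_num : 1 < 2)).1 h2
  omega

/-- a class without small prime powers -/
lemma psi_zero (d a : ℕ) (Z X : ℝ) (hX : X ≤ Z) (h : NoPP d Z a) :
    ∑ n ∈ (Icc 1 ⌊X⌋₊).filter (fun n => n ≡ a [MOD d]), ArithmeticFunction.vonMangoldt n = 0 := by
  apply sum_eq_zero
  intro n hn
  rw [mem_filter, mem_Icc] at hn
  rw [ArithmeticFunction.vonMangoldt_eq_zero_iff]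
  refine h n ?_ hn.2
  have h1 : 1 ≤ ⌊X⌋₊ := by omega
  have hX0 : 0 ≤ X := by
    by_contra hcon
    push Not at hcon
    rw [Nat.floor_of_nonpos hcon.le] at h1
    omega
  exact ((Nat.le_floor_iff hX0).1 hn.1.2).trans hX

end Pool.Agent.T2h81.HV
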