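import Pool.Agent.T2h81.HV.V1
import Pool.Agent.T2h81.UC.C5

set_option autoImplicit false
set_option linter.unusedSectionVars false
set_option linter.unusedVariables false
set_option maxHeartbeats 4000000

/-! # Runs of reduced residues: counting -/

namespace Pool.Agent.T2h81.HV

open Finset
open Pool.Agent.T2h81.UC (rr Late late_main)

open scoped Classical

/-- the reduced residues in an interval -/
noncomputable def RR (d M N : ℕ) : Finset ℕ := (Ioc M (M + N)).filter (fun n => n.Coprime d)

lemma rr_infinite (d n : ℕ) (hd : 0 < d) : (Set.ofPred (fun a => n < a ∧ a.Coprime d)).Infinite := by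
  apply Set.infinite_of_forall_exists_gt
  intro a
  refine ⟨1 + (a + n + 1) * d, ?_, ?_⟩
  · rw [Set.mem_ofPred_eq]
    constructor
    · nlinarith
    · have : Nat.Coprime (1 + (a + n + 1) * d) d := by
        rw [Nat.coprime_add_mul_right_left]
        exact Nat.coprime_one_left d
      exact this
  · nlinarith

lemma rr_mem (d n j : ℕ) (hd : 0 < d) : n < rr d n j ∧ (rr d n j).Coprime d :=
  Nat.nth_mem_of_infinite (rr_infinite d n hd) j

lemma rr_mono (d n₁ n₂ j : ℕ) (hd : 0 < d) (h : n₁ < n₂) (hc : n₂.Coprime d) :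
    rr d n₁ j < rr d n₂ j := by
  apply Nat.nth_lt_of_lt_count
  have h1 : Nat.count (fun a => n₂ < a ∧ a.Coprime d) (rr d n₂ j) = j :=
    Nat.count_nth_of_infinite (rr_infinite d n₂ hd) j
  have h2 := rr_mem d n₂ j hd
  rw [← h1]
  rw [h1]
  have h3 : j = ((range (rr d n₂ j)).filter (fun a => n₂ < a ∧ a.Coprime d)).card := by
    rw [← Nat.count_eq_card_filter_range, h1]
  rw [Nat.count_eq_card_filter_range, h3]
  apply card_lt_card
  rw [← h3]
  rw [ssubset_iff_of_subset]
  · refine ⟨n₂, ?_, ?_⟩
    · rw [mem_filter, mem_range]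
      exact ⟨h2.1, h, hc⟩
    · rw [mem_filter]
      rintro ⟨-, h4, -⟩
      omega
  · intro a ha
    rw [mem_filter] at ha ⊢
    exact ⟨ha.1, by omega, ha.2.2⟩

/-- the run of `m` reduced residues after `n` is in the interval -/
def Full (d M N m n : ℕ) : Prop := m ≤ ((Ioc n (M + N)).filter (fun a => a.Coprime d)).card

lemma full_le (d M N m n j : ℕ) (hd : 0 < d) (h : Full d M N m n) (hj : j < m) :
    rr d n j ≤ M + N := by
  have h1 : rr d n j < M + N + 1 := by
    apply Nat.nth_lt_of_lt_count
    rw [Nat.count_eq_card_filter_range]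
    refine lt_of_lt_of_le (hj.trans_le h) (card_le_card ?_)
    intro a ha
    rw [mem_filter, mem_Ioc] at ha
    rw [mem_filter, mem_range]
    exact ⟨by omega, ha.1.1, ha.2⟩
  omega

lemma not_full (d M N m : ℕ) : ((RR d M N).filter (fun n => ¬ Full d M N m n)).card ≤ m := by
  calc ((RR d M N).filter (fun n => ¬ Full d M N m n)).card ≤ (range m).card := by
        apply card_le_card_of_injOn (fun n => ((Ioc n (M + N)).filter (fun a => a.Coprime d)).card)
        · intro n hn
          have h1 := (mem_filter.1 hn).2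
          unfold Full at h1
          rw [coe_range, Set.mem_Iio]
          exact not_le.1 h1
        · have key : ∀ n₁ ∈ RR d M N, ∀ n₂ ∈ RR d M N, n₁ < n₂ →
              ((Ioc n₂ (M + N)).filter (fun a => a.Coprime d)).card <
              ((Ioc n₁ (M + N)).filter (fun a => a.Coprime d)).card := by
            intro n₁ h₁ n₂ h₂ hlt
            unfold RR at h₂
            rw [mem_filter, mem_Ioc] at h₂
            apply card_lt_card
            rw [ssubset_iff_of_subset]
            · refine ⟨n₂, ?_, ?_⟩
              · rw [mem_filter, mem_Ioc]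
                exact ⟨⟨hlt, h₂.1.2⟩, h₂.2⟩
              · rw [mem_filter, mem_Ioc]
                rintro ⟨⟨h4, -⟩, -⟩
                omega
            · intro a ha
              rw [mem_filter, mem_Ioc] at ha ⊢
              exact ⟨⟨by omega, ha.1.2⟩, ha.2⟩
          intro n₁ h₁ n₂ h₂ heq
          have h₁' := (mem_filter.1 h₁).1
          have h₂' := (mem_filter.1 h₂).1
          have heq' : ((Ioc n₁ (M + N)).filter (fun a => a.Coprime d)).card =
              ((Ioc n₂ (M + N)).filter (fun a => a.Coprime d)).card := heq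
          rcases lt_trichotomy n₁ n₂ with h | h | h
          · have := key n₁ h₁' n₂ h₂' h
            omega
          · exact h
          · have := key n₂ h₂' n₁ h₁' h
            omega
    _ = m := card_range m

/-- counting along the runs -/
lemma run_sum (d M N m : ℕ) (hd : 0 < d) (T : ℕ → Prop) :
    ∑ n ∈ (RR d M N).filter (fun n => Full d M N m n),
      ((range m).filter (fun j => T (rr d n j))).card ≤ m * ((RR d M N).filter T).card := by
  have h1 : ∑ n ∈ (RR d M N).filter (fun n => Full d M N m n),
      ((range m).filter (fun j => T (rr d n j))).card =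
      ∑ j ∈ range m, (((RR d M N).filter (fun n => Full d M N m n)).filter
        (fun n => T (rr d n j))).card := by
    simp_rw [card_filter]
    exact sum_comm
  rw [h1]
  calc _ ≤ ∑ j ∈ range m, ((RR d M N).filter T).card := by
        apply sum_le_sum
        intro j hj
        apply card_le_card_of_injOn (fun n => rr d n j)
        · intro n hn
          obtain ⟨hn1, hn2⟩ := mem_filter.1 hn
          obtain ⟨hn3, hn4⟩ := mem_filter.1 hn1
          unfold RR at hn3
          rw [mem_filter, mem_Ioc] at hn3
          have h2 := rr_mem d n j hd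
          have h3 := full_le d M N m n j hd hn4 (mem_range.1 hj)
          rw [mem_coe, mem_filter]
          refine ⟨?_, hn2⟩
          unfold RR
          rw [mem_filter, mem_Ioc]
          exact ⟨⟨lt_trans hn3.1.1 h2.1, h3⟩, h2.2⟩
        · intro n₁ h₁ n₂ h₂ heq
          have h₁' := (mem_filter.1 (mem_filter.1 h₁).1).1
          have h₂' := (mem_filter.1 (mem_filter.1 h₂).1).1
          unfold RR at h₁' h₂'
          have c₁ := (mem_filter.1 h₁').2
          have c₂ := (mem_filter.1 h₂').2
          have heq' : rr d n₁ j = rr d n₂ j := heq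
          rcases lt_trichotomy n₁ n₂ with h | h | h
          · have := rr_mono d n₁ n₂ j hd h c₂
            omega
          · exact h
          · have := rr_mono d n₂ n₁ j hd h c₁
            omega
    _ = _ := by rw [sum_const, card_range, smul_eq_mul]

/-- a late class without prime powers of exponent at least two -/
lemma nopp_of (d b : ℕ) (Z : ℝ) (hl : Late d Z b)
    (hb : ¬ ∃ n : ℕ, (n : ℝ) ≤ Z ∧ n ≡ b [MOD d] ∧ ∃ p k : ℕ, p.Prime ∧ 2 ≤ k ∧ n = p ^ k) :
    NoPP d Z b := by
  intro n hn hmod hpp
  rw [isPrimePow_nat_iff] at hpp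
  obtain ⟨p, k, hp, hk, hpk⟩ := hpp
  rcases Nat.lt_or_ge k 2 with h | h
  · have hk1 : k = 1 := by omega
    subst hk1
    rw [pow_one] at hpk
    subst hpk
    have := hl p hp hmod
    linarith
  · exact hb ⟨n, hn, hmod, p, k, hp, h, hpk.symm⟩

/-- exceptional sets -/
lemma exc_count (d M N m : ℕ) (hd : 0 < d) (hm : 0 < m) (θ : ℝ) (hθ : 0 < θ) (Z : ℝ) (B : ℝ)
    (hB : (((RR d M N).filter (fun b => ∃ n : ℕ, (n : ℝ) ≤ Z ∧ n ≡ b [MOD d] ∧
      ∃ p k : ℕ, p.Prime ∧ 2 ≤ k ∧ n = p ^ k)).card : ℝ) ≤ B) :
    (((RR d M N).filter (fun n => (((range m).filter (fun j => NoPP d Z (rr d n j))).card : ℝ) <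
      θ / 2 * m)).card : ℝ) ≤
    (((RR d M N).filter (fun n => (((range m).filter (fun j => Late d Z (rr d n j))).card : ℝ) <
      θ * m)).card : ℝ) + m + 2 * B / θ := by
  set bad : ℕ → Prop := fun b => ∃ n : ℕ, (n : ℝ) ≤ Z ∧ n ≡ b [MOD d] ∧
      ∃ p k : ℕ, p.Prime ∧ 2 ≤ k ∧ n = p ^ k with hbad
  have hm0 : (0 : ℝ) < m := by exact_mod_cast hm
  set E := ((RR d M N).filter (fun n => Full d M N m n)).filter (fun n =>
    θ / 2 * m < (((range m).filter (fun j => bad (rr d n j))).card : ℝ)) with hE
  have hEc : (E.card : ℝ) ≤ 2 * B / θ := by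
    have h1 : (E.card : ℝ) * (θ / 2 * m) ≤ m * B := by
      calc (E.card : ℝ) * (θ / 2 * m) = ∑ n ∈ E, θ / 2 * m := by rw [sum_const, nsmul_eq_mul]
        _ ≤ ∑ n ∈ E, (((range m).filter (fun j => bad (rr d n j))).card : ℝ) := by
            apply sum_le_sum
            intro n hn
            exact ((mem_filter.1 hn).2).le
        _ ≤ ∑ n ∈ (RR d M N).filter (fun n => Full d M N m n),
            (((range m).filter (fun j => bad (rr d n j))).card : ℝ) :=
            sum_le_sum_of_subset_of_nonneg (filter_subset _ _) fun _ _ _ => Nat.cast_nonneg _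
        _ ≤ (m : ℝ) * (((RR d M N).filter bad).card : ℝ) := by
            exact_mod_cast run_sum d M N m hd bad
        _ ≤ m * B := mul_le_mul_of_nonneg_left hB hm0.le
    rw [le_div_iff₀ hθ]
    have h2 : (E.card : ℝ) * θ * m ≤ 2 * B * m := by linarith
    exact le_of_mul_le_mul_right h2 hm0
  have hsub : (RR d M N).filter (fun n =>
      (((range m).filter (fun j => NoPP d Z (rr d n j))).card : ℝ) < θ / 2 * m) ⊆
      (RR d M N).filter (fun n =>
        (((range m).filter (fun j => Late d Z (rr d n j))).card : ℝ) < θ * m) ∪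
      (RR d M N).filter (fun n => ¬ Full d M N m n) ∪ E := by
    intro n hn
    obtain ⟨hn1, hn2⟩ := mem_filter.1 hn
    by_contra hcon
    rw [mem_union, mem_union, not_or, not_or, mem_filter, mem_filter, hE, mem_filter,
      mem_filter] at hcon
    obtain ⟨⟨c1, c2⟩, c3⟩ := hcon
    have d1 : θ * m ≤ (((range m).filter (fun j => Late d Z (rr d n j))).card : ℝ) := by
      by_contra h
      push Not at h
      exact c1 ⟨hn1, h⟩
    have d2 : Full d M N m n := by
      by_contra h
      exact c2 ⟨hn1, h⟩
    have d3 : (((range m).filter (fun j => bad (rr d n j))).card : ℝ) ≤ θ / 2 * m := by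
      by_contra h
      push Not at h
      exact c3 ⟨⟨hn1, d2⟩, h⟩
    have d4 : (range m).filter (fun j => Late d Z (rr d n j)) ⊆
        (range m).filter (fun j => NoPP d Z (rr d n j)) ∪
        (range m).filter (fun j => bad (rr d n j)) := by
      intro j hj
      obtain ⟨hj1, hj2⟩ := mem_filter.1 hj
      rw [mem_union, mem_filter, mem_filter]
      by_cases h : bad (rr d n j)
      · exact Or.inr ⟨hj1, h⟩
      · exact Or.inl ⟨hj1, nopp_of d _ Z hj2 h⟩
    have d5 := (card_le_card d4).trans (card_union_le _ _)
    have d6 : (((range m).filter (fun j => Late d Z (rr d n j))).card : ℝ) ≤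
        (((range m).filter (fun j => NoPP d Z (rr d n j))).card : ℝ) +
        (((range m).filter (fun j => bad (rr d n j))).card : ℝ) := by exact_mod_cast d5
    linarith
  have h1 := (card_le_card hsub).trans ((card_union_le _ _).trans
    (Nat.add_le_add_right (card_union_le _ _) _))
  have h2 : (((RR d M N).filter (fun n =>
      (((range m).filter (fun j => NoPP d Z (rr d n j))).card : ℝ) < θ / 2 * m)).card : ℝ) ≤
      (((RR d M N).filter (fun n =>
        (((range m).filter (fun j => Late d Z (rr d n j))).card : ℝ) < θ * m)).card : ℝ) +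
      (((RR d M N).filter (fun n => ¬ Full d M N m n)).card : ℝ) + (E.card : ℝ) := by
    exact_mod_cast h1
  have h3 : (((RR d M N).filter (fun n => ¬ Full d M N m n)).card : ℝ) ≤ m := by
    exact_mod_cast not_full d M N m
  linarith

end Pool.Agent.T2h81.HV
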