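import Pool.Agent.T2h81.HV.V2
import Pool.Agent.H510R2.Div
import Pool.Agent.H256R2.SC.G3

set_option autoImplicit false
set_option linter.unusedSectionVars false
set_option linter.unusedVariables false
set_option maxHeartbeats 4000000

/-! # Runs and intervals of classes without small prime powers -/

namespace Pool.Agent.T2h81.HV

open Finset Filter
open Pool.Agent.T2h81.UC (rr Late late_main)
open Pool.Agent.H256R2.SC.G3 (count_main totient_div prod_ge_half)

open scoped Classical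

lemma omega_le (ε : ℝ) (hε : 0 < ε) : ∃ C : ℝ, 0 < C ∧ ∀ d : ℕ, 1 ≤ d →
    (2 : ℝ) ^ d.primeFactors.card ≤ C * (d : ℝ) ^ ε := by
  obtain ⟨C, hC, h⟩ := Pool.Agent.H510R2.divisor_bound ε hε
  refine ⟨C, hC, fun d hd => le_trans ?_ (h d hd)⟩
  have h1 : 2 ^ d.primeFactors.card ≤ d.divisors.card := by
    rw [Nat.card_divisors (by omega), ← Finset.prod_const]
    apply Finset.prod_le_prod
    · intro p _; exact Nat.zero_le _
    · intro p hp
      have := (Nat.prime_of_mem_primeFactors hp).factorization_pos_of_dvd (show d ≠ 0 by omega)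
        (Nat.dvd_of_mem_primeFactors hp)
      omega
  exact_mod_cast h1

lemma red_count (d M N : ℕ) (hd : d ≠ 0) :
    |((RR d M N).card : ℝ) - (d.totient : ℝ) / d * N| ≤ 2 ^ d.primeFactors.card := by
  have h := count_main d 1 1 hd one_pos (Nat.coprime_one_left d) (Nat.coprime_one_left d) 0
    (M + 1 : ℤ) 0 N
  have e1 : ((((Finset.Ico ((M : ℤ) + 1) ((M : ℤ) + 1 + N)).filter
      (fun x => IsCoprime (0 + ((1 : ℕ) : ℤ) * x) (d : ℤ))).filter
      (fun x => ((1 : ℕ) : ℤ) ∣ x - 0)).card) = (RR d M N).card := by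
    symm
    apply Finset.card_bij (fun (n : ℕ) _ => (n : ℤ))
    · intro n hn
      unfold RR at hn
      rw [mem_filter, mem_Ioc] at hn
      rw [mem_filter, mem_filter, mem_Ico]
      refine ⟨⟨⟨by omega, by omega⟩, ?_⟩, by simp⟩
      have : (0 : ℤ) + ((1 : ℕ) : ℤ) * (n : ℤ) = (n : ℤ) := by push_cast; ring
      rw [this]
      exact Nat.isCoprime_iff_coprime.2 hn.2
    · intro a _ b _ hab
      exact_mod_cast hab
    · intro x hx
      rw [mem_filter, mem_filter, mem_Ico] at hx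
      obtain ⟨⟨⟨h1, h2⟩, h3⟩, -⟩ := hx
      have : (0 : ℤ) + ((1 : ℕ) : ℤ) * x = x := by push_cast; ring
      rw [this] at h3
      have hx0 : 0 ≤ x := by omega
      obtain ⟨n, rfl⟩ := Int.eq_ofNat_of_zero_le hx0
      refine ⟨n, ?_, rfl⟩
      unfold RR
      rw [mem_filter, mem_Ioc]
      exact ⟨⟨by omega, by omega⟩, Nat.isCoprime_iff_coprime.1 h3⟩
  rw [e1] at h
  have e2 : ((N : ℝ) * ((Nat.totient d : ℕ) : ℝ) / d) / ((1 : ℕ) : ℝ) = (d.totient : ℝ) / d * N := by
    push_cast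
    ring
  rw [e2] at h
  exact h

/-- sizes -/
lemma ev_sizes (η κ A C₁ E₁ lam : ℝ) (hη : 0 < η) (hκ : 0 < κ) (hA : 0 < A) (hC₁ : 0 < C₁) :
    ∀ᶠ d : ℝ in atTop, 1 ≤ d ∧ 1 ≤ Real.log d ∧ 1 + A * (Real.log d) ^ 2 ≤ d ^ (η / 4) ∧
      C₁ / κ ≤ d ^ (η / 8) ∧ C₁ ≤ d ^ (η / 8) ∧ E₁ ≤ d ^ (η / 2) ∧ lam * Real.log d ≤ d := by
  have h1 : ∀ s : ℝ, 0 < s → Tendsto (fun d : ℝ => d ^ s) atTop atTop := fun s hs =>
    tendsto_rpow_atTop hs
  have hlog := (isLittleO_log_rpow_atTop (show (0 : ℝ) < η / 16 by positivity)).def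
      (show (0 : ℝ) < 1 by norm_num)
  have hlog2 := (isLittleO_log_rpow_atTop (show (0 : ℝ) < 1 / 2 by norm_num)).def
      (show (0 : ℝ) < 1 by norm_num)
  filter_upwards [eventually_ge_atTop (1 : ℝ), Real.tendsto_log_atTop.eventually_ge_atTop 1, hlog,
    (h1 (η / 8) (by positivity)).eventually_ge_atTop (1 + A),
    (h1 (η / 8) (by positivity)).eventually_ge_atTop (C₁ / κ),
    (h1 (η / 8) (by positivity)).eventually_ge_atTop C₁,
    (h1 (η / 2) (by positivity)).eventually_ge_atTop E₁, hlog2,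
    (h1 (1 / 2) (by positivity)).eventually_ge_atTop |lam|] with d a1 a2 a3 a4 a5 a6 a7 a8 a9
  have hd0 : 0 < d := by linarith
  have hl0 : 0 ≤ Real.log d := by linarith
  refine ⟨a1, a2, ?_, a5, a6, a7, ?_⟩
  · rw [Real.norm_eq_abs, abs_of_nonneg hl0, Real.norm_eq_abs,
      abs_of_nonneg (Real.rpow_nonneg hd0.le _), one_mul] at a3
    have b1 : (Real.log d) ^ 2 ≤ d ^ (η / 8) := by
      calc (Real.log d) ^ 2 ≤ (d ^ (η / 16)) ^ 2 := pow_le_pow_left₀ hl0 a3 2
        _ = d ^ (η / 8) := by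
            rw [← Real.rpow_natCast, ← Real.rpow_mul hd0.le]
            congr 1
            push_cast
            ring
    have b2 : d ^ (η / 4) = d ^ (η / 8) * d ^ (η / 8) := by
      rw [← Real.rpow_add hd0]; congr 1; ring
    have b3 : (1 : ℝ) ≤ d ^ (η / 8) := Real.one_le_rpow a1 (by positivity)
    rw [b2]
    calc 1 + A * (Real.log d) ^ 2 ≤ d ^ (η / 8) + A * d ^ (η / 8) :=
          add_le_add b3 (mul_le_mul_of_nonneg_left b1 hA.le)
      _ = (1 + A) * d ^ (η / 8) := by ring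
      _ ≤ d ^ (η / 8) * d ^ (η / 8) := mul_le_mul_of_nonneg_right a4 (by positivity)
  · rw [Real.norm_eq_abs, abs_of_nonneg hl0, Real.norm_eq_abs,
      abs_of_nonneg (Real.rpow_nonneg hd0.le _), one_mul] at a8
    calc lam * Real.log d ≤ |lam| * Real.log d := mul_le_mul_of_nonneg_right (le_abs_self _) hl0
      _ ≤ d ^ (1 / 2 : ℝ) * d ^ (1 / 2 : ℝ) := mul_le_mul a9 a8 hl0 (by positivity)
      _ = d := by rw [← Real.rpow_add hd0]; norm_num

theorem main_runs : ∃ C : ℝ, 1 ≤ C ∧ ∀ η lam : ℝ, 0 < η → η ≤ 1 → 1 ≤ lam →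
    ∃ d₀ : ℕ, ∀ d : ℕ, d₀ ≤ d → ∀ M N : ℕ, M + N ≤ d → (d : ℝ) ^ η ≤ N →
    (∀ m : ℕ, Real.exp (Real.exp (C * lam / η)) ≤ m → (m : ℝ) ≤ (d : ℝ) ^ (η / 2) →
      (((RR d M N).filter (fun n => (((range m).filter (fun j =>
        NoPP d (lam * d.totient * Real.log d) (rr d n j))).card : ℝ) <
          Real.exp (-Real.exp (C * lam / η)) * m)).card : ℝ) ≤
        Real.exp (-(lam / η)) * (((d.totient : ℝ) / d) * N)) ∧
    Real.exp (-Real.exp (C * lam / η)) * (((d.totient : ℝ) / d) * N) ≤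
      (((RR d M N).filter (NoPP d (lam * d.totient * Real.log d))).card : ℝ) := by
  obtain ⟨C₀, hC₀, hmain⟩ := late_main
  refine ⟨4 * C₀, by linarith, ?_⟩
  intro η lam hη hη1 hlam
  have hlam0 : 0 < lam := by linarith
  have hlη : 1 ≤ lam / η := by
    rw [le_div_iff₀ hη]; linarith
  obtain ⟨x, hx⟩ : ∃ x : ℝ, x = C₀ * (2 * lam) / η := ⟨_, rfl⟩
  have hx2 : 2 ≤ x := by
    rw [hx, mul_div_assoc, mul_div_assoc]
    nlinarith
  have hxC : 4 * C₀ * lam / η = 2 * x := by rw [hx]; ring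
  obtain ⟨θ, hθ⟩ : ∃ θ : ℝ, θ = Real.exp (-Real.exp x) := ⟨_, rfl⟩
  have hθ0 : 0 < θ := by rw [hθ]; exact Real.exp_pos _
  have hex : Real.exp x + 3 ≤ Real.exp (2 * x) := by
    have h1 : Real.exp (2 * x) = Real.exp x * Real.exp x := by rw [← Real.exp_add]; ring_nf
    have h2 : x + 1 ≤ Real.exp x := Real.add_one_le_exp x
    rw [h1]
    nlinarith
  have hθ16 : Real.exp (-Real.exp (2 * x)) ≤ θ / 8 := by
    have h1 : Real.exp (-Real.exp (2 * x)) ≤ Real.exp (-Real.exp x - 3) :=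
      Real.exp_le_exp.2 (by linarith)
    have h2 : Real.exp (-Real.exp x - 3) = θ * Real.exp (-3) := by
      rw [hθ, ← Real.exp_add]; congr 1
    have h3 : Real.exp (-3 : ℝ) ≤ 1 / 8 := by
      rw [Real.exp_neg, ← one_div]
      apply one_div_le_one_div_of_le (by norm_num)
      have h4 : Real.exp (3 : ℝ) = Real.exp 1 * Real.exp 1 * Real.exp 1 := by
        rw [← Real.exp_add, ← Real.exp_add]; norm_num
      have h5 := Real.exp_one_gt_d9
      rw [h4]
      nlinarith [mul_pos (Real.exp_pos 1) (Real.exp_pos 1)]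
    rw [h2] at h1
    nlinarith
  -- the constants
  obtain ⟨κ, hκ⟩ : ∃ κ : ℝ, κ = min (Real.exp (-(lam / η)) - Real.exp (-(2 * lam / η))) (1 / 8) :=
    ⟨_, rfl⟩
  have hκ0 : 0 < κ := by
    rw [hκ]
    apply lt_min _ (by norm_num)
    rw [sub_pos]
    apply Real.exp_lt_exp.2
    have : 2 * lam / η = 2 * (lam / η) := by ring
    rw [this]
    linarith
  have hκ1 : κ ≤ Real.exp (-(lam / η)) - Real.exp (-(2 * lam / η)) := by rw [hκ]; exact min_le_left _ _
  have hκ8 : κ ≤ 1 / 8 := by rw [hκ]; exact min_le_right _ _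
  obtain ⟨C₁, hC₁, hω⟩ := omega_le (η / 8) (by positivity)
  obtain ⟨d₁, hd₁⟩ := hmain η (2 * lam) hη hη1 (by linarith)
  obtain ⟨E₁, hE₁⟩ : ∃ E : ℝ, E = Real.exp (Real.exp (2 * x)) + 1 := ⟨_, rfl⟩
  obtain ⟨D, hD⟩ := eventually_atTop.1 (ev_sizes η κ (64 * lam / θ) C₁ E₁ lam hη hκ0 (by positivity) hC₁)
  refine ⟨max d₁ (max ⌈D⌉₊ 1), ?_⟩
  intro d hd M N hMN hN
  have hd1 : d₁ ≤ d := (le_max_left _ _).trans hd
  have hdD : D ≤ d := (Nat.le_ceil D).trans
    (by exact_mod_cast (le_max_left _ _).trans ((le_max_right _ _).trans hd))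
  have hdpos : 0 < d := (le_max_right _ _).trans ((le_max_right _ _).trans hd)
  obtain ⟨s1, s2, s3, s4, s5, s6, s7⟩ := hD d hdD
  have hd0 : (0 : ℝ) < d := by linarith
  obtain ⟨ρ, hρ⟩ : ∃ ρ : ℝ, ρ = (d.totient : ℝ) / d := ⟨_, rfl⟩
  obtain ⟨Z, hZ⟩ : ∃ Z : ℝ, Z = lam * d.totient * Real.log d := ⟨_, rfl⟩
  rw [hxC, ← hρ, ← hZ]
  have htot : (d.totient : ℝ) ≤ d := by exact_mod_cast Nat.totient_le d
  have hlog0 : 0 < Real.log d := by linarith
  have hZ0 : 0 ≤ Z := by rw [hZ]; positivity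
  have hZd : Z ≤ lam * Real.log d * d := by
    rw [hZ]
    have := mul_le_mul_of_nonneg_left htot (show 0 ≤ lam * Real.log d by positivity)
    linarith [mul_right_comm lam (d.totient : ℝ) (Real.log d)]
  have hN0 : (0 : ℝ) < N := lt_of_lt_of_le (Real.rpow_pos_of_pos hd0 _) hN
  have hN1 : 1 ≤ N := by exact_mod_cast hN0
  -- the density
  have hρ1 : 1 / (C₁ * (d : ℝ) ^ (η / 8)) ≤ ρ := by
    have h1 := prod_ge_half d
    rw [← totient_div d hdpos.ne', ← hρ] at h1
    refine le_trans ?_ h1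
    rw [one_div_pow]
    exact one_div_le_one_div_of_le (by positivity) (hω d hdpos)
  have hρ0 : 0 < ρ := lt_of_lt_of_le (by positivity) hρ1
  have hsm : (d : ℝ) ^ (-(η / 4)) ≤ κ * ρ := by
    have h1 : (d : ℝ) ^ (-(η / 4)) = 1 / ((d : ℝ) ^ (η / 8) * (d : ℝ) ^ (η / 8)) := by
      rw [← Real.rpow_add hd0, Real.rpow_neg hd0.le, one_div]
      congr 2
      ring
    rw [h1]
    have h2 : 1 / (C₁ * (d : ℝ) ^ (η / 8)) * κ ≤ ρ * κ := mul_le_mul_of_nonneg_right hρ1 hκ0.le
    refine le_trans ?_ (le_trans h2 (le_of_eq (mul_comm _ _)))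
    rw [div_mul_eq_mul_div, one_mul, div_le_div_iff₀ (by positivity) (by positivity), one_mul]
    have h3 : C₁ ≤ κ * (d : ℝ) ^ (η / 8) := by
      rw [div_le_iff₀ hκ0] at s4
      linarith
    calc C₁ * (d : ℝ) ^ (η / 8) ≤ (κ * (d : ℝ) ^ (η / 8)) * (d : ℝ) ^ (η / 8) :=
          mul_le_mul_of_nonneg_right h3 (by positivity)
      _ = _ := by ring
  have hNs : (d : ℝ) ^ (η / 2) ≤ N * (d : ℝ) ^ (-(η / 2)) := by
    calc (d : ℝ) ^ (η / 2) = (d : ℝ) ^ η * (d : ℝ) ^ (-(η / 2)) := by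
          rw [← Real.rpow_add hd0]; congr 1; ring
      _ ≤ _ := mul_le_mul_of_nonneg_right hN (by positivity)
  have hsq : Real.sqrt N ≤ N * (d : ℝ) ^ (-(η / 2)) := by
    have h1 : (d : ℝ) ^ (η / 2) ≤ Real.sqrt N := by
      apply Real.le_sqrt_of_sq_le
      refine le_trans (le_of_eq ?_) hN
      rw [← Real.rpow_natCast, ← Real.rpow_mul hd0.le]
      congr 1
      push_cast
      ring
    have h2 : Real.sqrt N * Real.sqrt N = N := Real.mul_self_sqrt hN0.le
    have h3 : (1 : ℝ) ≤ Real.sqrt N * (d : ℝ) ^ (-(η / 2)) := by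
      rw [Real.rpow_neg hd0.le]
      rw [← div_eq_mul_inv, le_div_iff₀ (by positivity), one_mul]
      exact h1
    calc Real.sqrt N = Real.sqrt N * 1 := (mul_one _).symm
      _ ≤ Real.sqrt N * (Real.sqrt N * (d : ℝ) ^ (-(η / 2))) :=
          mul_le_mul_of_nonneg_left h3 (Real.sqrt_nonneg _)
      _ = _ := by rw [← mul_assoc, h2]
  -- the prime powers
  set bad : ℕ → Prop := fun b => ∃ n : ℕ, (n : ℝ) ≤ Z ∧ n ≡ b [MOD d] ∧
      ∃ p k : ℕ, p.Prime ∧ 2 ≤ k ∧ n = p ^ k with hbad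
  obtain ⟨J, hJ⟩ : ∃ J : ℕ, J = ⌊Z / d⌋₊ + 1 := ⟨_, rfl⟩
  obtain ⟨K, hK⟩ : ∃ K : ℕ, K = Nat.log 2 ⌊Z⌋₊ := ⟨_, rfl⟩
  have hBn : ((RR d M N).filter bad).card ≤ J * ((K + 1) * (Nat.sqrt N + 1)) := by
    apply bad_count d M N J K hdpos hMN
    intro b hb
    obtain ⟨hb1, n, hn, hmod, p, k, hp, hk, hpk⟩ := mem_filter.1 hb
    unfold RR at hb1
    rw [mem_filter, mem_Ioc] at hb1
    have hnZ : n ≤ ⌊Z⌋₊ := Nat.le_floor hn
    refine ⟨hb1.1.1, hb1.1.2, p, k, n, hk, ?_, hpk, hmod, ?_, ?_⟩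
    · apply expo_le p k n K hp.two_le hpk
      rw [hK]
      exact lt_of_le_of_lt hnZ (Nat.lt_pow_succ_log_self (by norm_num) _)
    · rw [hpk]; exact Nat.pos_of_ne_zero (pow_ne_zero _ hp.ne_zero)
    · have h1 : (n : ℝ) < J * d := by
        have h2 := Nat.lt_floor_add_one (Z / d)
        rw [div_lt_iff₀ hd0] at h2
        rw [hJ]
        push_cast
        linarith
      exact_mod_cast h1
  have hBr : (((RR d M N).filter bad).card : ℝ) ≤
      16 * lam * (2 * (Real.log d) ^ 2) * (N * (d : ℝ) ^ (-(η / 2))) := by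
    have h1 : (((RR d M N).filter bad).card : ℝ) ≤ J * ((K + 1) * (Nat.sqrt N + 1)) := by
      exact_mod_cast hBn
    have h2 : (J : ℝ) ≤ 2 * lam * Real.log d := by
      rw [hJ]
      push_cast
      have h3 := Nat.floor_le (show 0 ≤ Z / d by positivity)
      have h4 : Z / d ≤ lam * Real.log d := by
        rw [div_le_iff₀ hd0]; exact hZd
      have h5 : 1 ≤ lam * Real.log d := by nlinarith
      linarith
    have h3 : ((K : ℝ) + 1) ≤ 4 * Real.log d := by
      have h4 : (K : ℝ) ≤ 2 * Real.log d / Real.log 2 := by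
        by_cases hz : ⌊Z⌋₊ = 0
        · rw [hK, hz]
          simp
          positivity
        have h5 : 2 ^ K ≤ ⌊Z⌋₊ := by rw [hK]; exact Nat.pow_log_le_self 2 hz
        have h6 : (2 : ℝ) ^ K ≤ (d : ℝ) ^ 2 := by
          calc (2 : ℝ) ^ K ≤ ⌊Z⌋₊ := by exact_mod_cast h5
            _ ≤ Z := Nat.floor_le hZ0
            _ ≤ lam * Real.log d * d := hZd
            _ ≤ d * d := mul_le_mul_of_nonneg_right s7 hd0.le
            _ = _ := by ring
        have h7 := Real.log_le_log (by positivity) h6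
        rw [Real.log_pow, Real.log_pow] at h7
        rw [le_div_iff₀ (Real.log_pos (by norm_num))]
        push_cast at h7
        exact h7
      have h5 := Real.log_two_gt_d9
      have h6 : 2 * Real.log d / Real.log 2 ≤ 3 * Real.log d := by
        rw [div_le_iff₀ (by linarith)]
        nlinarith
      linarith
    have h4 : ((Nat.sqrt N : ℕ) : ℝ) + 1 ≤ 2 * Real.sqrt N := by
      have h5 : ((Nat.sqrt N : ℕ) : ℝ) ≤ Real.sqrt N := by
        apply Real.le_sqrt_of_sq_le
        have := Nat.sqrt_le' N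
        exact_mod_cast this
      have h6 : (1 : ℝ) ≤ Real.sqrt N := by
        rw [Real.one_le_sqrt]; exact_mod_cast hN1
      linarith
    calc (((RR d M N).filter bad).card : ℝ) ≤ J * ((K + 1) * (Nat.sqrt N + 1)) := h1
      _ ≤ (2 * lam * Real.log d) * ((4 * Real.log d) * (2 * Real.sqrt N)) := by
          apply mul_le_mul h2 _ (by positivity) (by positivity)
          apply mul_le_mul h3 h4 (by positivity) (by positivity)
      _ = 16 * lam * (Real.log d) ^ 2 * Real.sqrt N := by ring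
      _ ≤ 16 * lam * (Real.log d) ^ 2 * (N * (d : ℝ) ^ (-(η / 2))) :=
          mul_le_mul_of_nonneg_left hsq (by positivity)
      _ ≤ _ := by
          apply mul_le_mul_of_nonneg_right _ (by positivity)
          have : (0 : ℝ) ≤ 16 * lam * (Real.log d) ^ 2 := by positivity
          nlinarith
  have hsmall : ∀ m : ℕ, (m : ℝ) ≤ (d : ℝ) ^ (η / 2) →
      (m : ℝ) + 2 * (16 * lam * (2 * (Real.log d) ^ 2) * (N * (d : ℝ) ^ (-(η / 2)))) / θ ≤
        κ * (ρ * N) := by
    intro m hm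
    calc (m : ℝ) + 2 * (16 * lam * (2 * (Real.log d) ^ 2) * (N * (d : ℝ) ^ (-(η / 2)))) / θ ≤
        N * (d : ℝ) ^ (-(η / 2)) +
          2 * (16 * lam * (2 * (Real.log d) ^ 2) * (N * (d : ℝ) ^ (-(η / 2)))) / θ := by
          linarith [hm.trans hNs]
      _ = N * (d : ℝ) ^ (-(η / 2)) * (1 + 64 * lam / θ * (Real.log d) ^ 2) := by
          field_simp
          ring
      _ ≤ N * (d : ℝ) ^ (-(η / 2)) * (d : ℝ) ^ (η / 4) :=
          mul_le_mul_of_nonneg_left s3 (by positivity)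
      _ = N * (d : ℝ) ^ (-(η / 4)) := by
          rw [mul_assoc, ← Real.rpow_add hd0]
          congr 2
          ring
      _ ≤ N * (κ * ρ) := mul_le_mul_of_nonneg_left hsm hN0.le
      _ = _ := by ring
  -- the runs, with the density `θ / 2`
  have runs : ∀ m : ℕ, Real.exp (Real.exp x) ≤ m → (m : ℝ) ≤ (d : ℝ) ^ (η / 2) →
      (((RR d M N).filter (fun n => (((range m).filter (fun j =>
        NoPP d Z (rr d n j))).card : ℝ) < θ / 2 * m)).card : ℝ) ≤
        Real.exp (-(lam / η)) * (ρ * N) := by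
    intro m hm1 hm2
    have hmpos : 0 < m := by
      have : (0 : ℝ) < m := (Real.exp_pos _).trans_le hm1
      exact_mod_cast this
    have h1 := hd₁ d hd1 M N hMN hN m (by rw [← hx]; exact hm1) hm2
    rw [← hx, ← hθ, ← hρ] at h1
    have h2 := exc_count d M N m hdpos hmpos θ hθ0 Z _ hBr
    have h3 : (((RR d M N).filter (fun n => (((range m).filter (fun j =>
        Late d Z (rr d n j))).card : ℝ) < θ * m)).card : ℝ) ≤
        Real.exp (-(2 * lam / η)) * (ρ * N) := by
      refine le_trans ?_ h1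
      rw [Nat.cast_le]
      apply card_le_card
      intro n hn
      obtain ⟨hn1, hn2⟩ := mem_filter.1 hn
      unfold RR at hn1
      obtain ⟨hn3, hn4⟩ := mem_filter.1 hn1
      rw [mem_filter]
      refine ⟨hn3, hn4, lt_of_le_of_lt ?_ hn2⟩
      rw [Nat.cast_le]
      apply card_le_card
      intro j hj
      obtain ⟨hj1, hj2⟩ := mem_filter.1 hj
      rw [mem_filter]
      refine ⟨hj1, fun p hp hpa => lt_of_le_of_lt ?_ (hj2 p hp hpa)⟩
      rw [hZ]
      have : 0 ≤ lam * (d.totient : ℝ) * Real.log d := by positivity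
      linarith [mul_assoc 2 lam (d.totient : ℝ), mul_assoc 2 (lam * (d.totient : ℝ)) (Real.log d)]
    have h4 := hsmall m hm2
    have h5 : κ * (ρ * N) ≤ (Real.exp (-(lam / η)) - Real.exp (-(2 * lam / η))) * (ρ * N) :=
      mul_le_mul_of_nonneg_right hκ1 (by positivity)
    linarith
  have hxx : Real.exp x ≤ Real.exp (2 * x) := by linarith
  constructor
  · intro m hm1 hm2
    refine le_trans ?_ (runs m ((Real.exp_le_exp.2 hxx).trans hm1) hm2)
    rw [Nat.cast_le]
    apply card_le_card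
    intro n hn
    obtain ⟨hn1, hn2⟩ := mem_filter.1 hn
    rw [mem_filter]
    refine ⟨hn1, lt_of_lt_of_le hn2 ?_⟩
    apply mul_le_mul_of_nonneg_right _ (Nat.cast_nonneg _)
    linarith
  · obtain ⟨m, hm⟩ : ∃ m : ℕ, m = ⌈Real.exp (Real.exp (2 * x))⌉₊ := ⟨_, rfl⟩
    have hm1 : Real.exp (Real.exp (2 * x)) ≤ m := by rw [hm]; exact Nat.le_ceil _
    have hm2 : (m : ℝ) ≤ (d : ℝ) ^ (η / 2) := by
      have h1 := Nat.ceil_lt_add_one (Real.exp_pos (Real.exp (2 * x))).le
      rw [← hm, ← hE₁] at h1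
      linarith
    have hmr : (0 : ℝ) < m := (Real.exp_pos _).trans_le hm1
    have h1 := runs m ((Real.exp_le_exp.2 hxx).trans hm1) hm2
    obtain ⟨E, hE⟩ : ∃ E, E = (RR d M N).filter (fun n => (((range m).filter (fun j =>
        NoPP d Z (rr d n j))).card : ℝ) < θ / 2 * m) := ⟨_, rfl⟩
    rw [← hE] at h1
    have hE2 : (E.card : ℝ) ≤ 1 / 2 * (ρ * N) := by
      refine h1.trans (mul_le_mul_of_nonneg_right ?_ (by positivity))
      calc Real.exp (-(lam / η)) ≤ Real.exp (-1) := Real.exp_le_exp.2 (by linarith)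
        _ ≤ 1 / 2 := by
            rw [Real.exp_neg, ← one_div]
            apply one_div_le_one_div_of_le (by norm_num)
            have := Real.exp_one_gt_d9
            linarith
    have hR : ρ * N - κ * (ρ * N) ≤ ((RR d M N).card : ℝ) := by
      have h2 := red_count d M N hdpos.ne'
      rw [← hρ, abs_le] at h2
      have h3 : (2 : ℝ) ^ d.primeFactors.card ≤ κ * (ρ * N) := by
        calc (2 : ℝ) ^ d.primeFactors.card ≤ C₁ * (d : ℝ) ^ (η / 8) := hω d hdpos
          _ ≤ (d : ℝ) ^ (η / 8) * (d : ℝ) ^ (η / 8) :=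
              mul_le_mul_of_nonneg_right s5 (by positivity)
          _ ≤ (d : ℝ) ^ (η / 2) := by
              rw [← Real.rpow_add hd0]
              apply Real.rpow_le_rpow_of_exponent_le s1
              linarith
          _ ≤ N * (d : ℝ) ^ (-(η / 2)) := hNs
          _ ≤ N * (d : ℝ) ^ (-(η / 4)) := by
              apply mul_le_mul_of_nonneg_left _ hN0.le
              apply Real.rpow_le_rpow_of_exponent_le s1
              linarith
          _ ≤ N * (κ * ρ) := mul_le_mul_of_nonneg_left hsm hN0.le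
          _ = _ := by ring
      linarith [h2.1]
    have hmm : (m : ℝ) ≤ κ * (ρ * N) := by
      refine le_trans ?_ (hsmall m hm2)
      have : 0 ≤ 2 * (16 * lam * (2 * (Real.log d) ^ 2) * (N * (d : ℝ) ^ (-(η / 2)))) / θ := by
        positivity
      linarith
    obtain ⟨T, hT⟩ : ∃ T, T = (RR d M N).filter (NoPP d Z) := ⟨_, rfl⟩
    rw [← hT]
    have hsum := run_sum d M N m hdpos (NoPP d Z)
    rw [← hT] at hsum
    have hsum' : ∑ n ∈ (RR d M N).filter (fun n => Full d M N m n),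
        (((range m).filter (fun j => NoPP d Z (rr d n j))).card : ℝ) ≤ m * T.card := by
      exact_mod_cast hsum
    have hlow : (((RR d M N).card : ℝ) - m - E.card) * (θ / 2 * m) ≤ m * T.card := by
      refine le_trans ?_ hsum'
      obtain ⟨G, hG⟩ : ∃ G, G = ((RR d M N).filter (fun n => Full d M N m n)) \ E := ⟨_, rfl⟩
      have g1 : ((RR d M N).card : ℝ) - m - E.card ≤ G.card := by
        have a1 : (RR d M N).card ≤ ((RR d M N).filter (fun n => Full d M N m n)).card +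
            ((RR d M N).filter (fun n => ¬ Full d M N m n)).card := by
          rw [card_filter_add_card_filter_not]
        have a2 := not_full d M N m
        have a3 : ((RR d M N).filter (fun n => Full d M N m n)).card ≤ G.card + E.card := by
          rw [hG]
          exact card_le_card_sdiff_add_card
        have a4 : (RR d M N).card ≤ G.card + E.card + m := by omega
        have a5 : ((RR d M N).card : ℝ) ≤ G.card + E.card + m := by exact_mod_cast a4
        linarith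
      calc (((RR d M N).card : ℝ) - m - E.card) * (θ / 2 * m) ≤ G.card * (θ / 2 * m) :=
            mul_le_mul_of_nonneg_right g1 (by positivity)
        _ = ∑ n ∈ G, θ / 2 * m := by rw [sum_const, nsmul_eq_mul]
        _ ≤ ∑ n ∈ G, (((range m).filter (fun j => NoPP d Z (rr d n j))).card : ℝ) := by
            apply sum_le_sum
            intro n hn
            rw [hG, Finset.mem_sdiff] at hn
            by_contra hcon
            push Not at hcon
            apply hn.2
            rw [hE, mem_filter]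
            exact ⟨(mem_filter.1 hn.1).1, hcon⟩
        _ ≤ _ := by
            apply sum_le_sum_of_subset_of_nonneg
            · rw [hG]; exact sdiff_subset
            · intro _ _ _; exact Nat.cast_nonneg _
    have h6 : ρ * N / 4 ≤ ((RR d M N).card : ℝ) - m - E.card := by
      have : κ * (ρ * N) ≤ 1 / 8 * (ρ * N) := mul_le_mul_of_nonneg_right hκ8 (by positivity)
      linarith
    have h7 : (ρ * N / 4) * (θ / 2 * m) ≤ m * T.card :=
      (mul_le_mul_of_nonneg_right h6 (by positivity)).trans hlow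
    have h8 : (θ / 8 * (ρ * N)) * m ≤ T.card * m := by linarith
    have h9 := le_of_mul_le_mul_right h8 hmr
    refine le_trans (mul_le_mul_of_nonneg_right hθ16 (by positivity)) h9

end Pool.Agent.T2h81.HV
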