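import Pool.Agent.T2h81.HV.V1
import Pool.Agent.T2h81.LD.M4

set_option autoImplicit false
set_option linter.unusedSectionVars false
set_option linter.unusedVariables false
set_option maxHeartbeats 4000000

/-! # Sets of classes modulo a prime without small prime powers -/

namespace Pool.Agent.T2h81.HV

open Finset Filter
open Pool.Agent.T2h81.LD (LateC fam)
open Pool.Agent.W147.PS (ev_pow)

open scoped Classical

/-- the class `a` modulo `P` contains no prime power up to `Z` -/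
def NoPPc (P : ℕ) (Z : ℝ) (a : ZMod P) : Prop := ∀ n : ℕ, (n : ℝ) ≤ Z → (n : ZMod P) = a →
  ¬ IsPrimePow n

/-- the classes of the proper prime powers -/
lemma bad_classes (P : ℕ) (Z : ℝ) (hZ : 0 ≤ Z) (s : Finset (ZMod P)) :
    ((s.filter (fun a => ∃ n : ℕ, (n : ℝ) ≤ Z ∧ (n : ZMod P) = a ∧
      ∃ p k : ℕ, p.Prime ∧ 2 ≤ k ∧ n = p ^ k)).card : ℝ) ≤
      (Real.sqrt Z + 1) * (Nat.log 2 ⌊Z⌋₊ + 1) := by
  have hsub : s.filter (fun a => ∃ n : ℕ, (n : ℝ) ≤ Z ∧ (n : ZMod P) = a ∧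
      ∃ p k : ℕ, p.Prime ∧ 2 ≤ k ∧ n = p ^ k) ⊆
      (range (⌊Real.sqrt Z⌋₊ + 1) ×ˢ range (Nat.log 2 ⌊Z⌋₊ + 1)).image
        (fun w : ℕ × ℕ => ((w.1 ^ w.2 : ℕ) : ZMod P)) := by
    intro a ha
    obtain ⟨-, n, hn, hna, p, k, hp, hk, hpk⟩ := mem_filter.1 ha
    rw [mem_image]
    refine ⟨(p, k), ?_, by simp only; rw [← hpk, hna]⟩
    have hnZ : n ≤ ⌊Z⌋₊ := Nat.le_floor hn
    rw [mem_product, mem_range, mem_range]
    constructor
    · simp only
      have h1 : (p : ℝ) ≤ Real.sqrt Z := by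
        apply Real.le_sqrt_of_sq_le
        have h2 : p ^ 2 ≤ n := by
          rw [hpk]; exact Nat.pow_le_pow_right hp.pos hk
        have h3 : ((p : ℝ)) ^ 2 ≤ n := by exact_mod_cast h2
        linarith
      have := Nat.le_floor h1
      omega
    · simp only
      have := expo_le p k n (Nat.log 2 ⌊Z⌋₊) hp.two_le hpk
        (lt_of_le_of_lt hnZ (Nat.lt_pow_succ_log_self (by norm_num) _))
      omega
  have h1 := (card_le_card hsub).trans card_image_le
  rw [card_product, card_range, card_range] at h1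
  have h2 : ((s.filter (fun a => ∃ n : ℕ, (n : ℝ) ≤ Z ∧ (n : ZMod P) = a ∧
      ∃ p k : ℕ, p.Prime ∧ 2 ≤ k ∧ n = p ^ k)).card : ℝ) ≤
      (⌊Real.sqrt Z⌋₊ + 1) * (Nat.log 2 ⌊Z⌋₊ + 1) := by exact_mod_cast h1
  refine h2.trans (mul_le_mul_of_nonneg_right ?_ (by positivity))
  have := Nat.floor_le (Real.sqrt_nonneg Z)
  linarith

lemma noppc_of (P : ℕ) (b : ZMod P) (Z : ℝ) (hl : LateC P Z b)
    (hb : ¬ ∃ n : ℕ, (n : ℝ) ≤ Z ∧ (n : ZMod P) = b ∧ ∃ p k : ℕ, p.Prime ∧ 2 ≤ k ∧ n = p ^ k) :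
    NoPPc P Z b := by
  intro n hn hmod hpp
  rw [isPrimePow_nat_iff] at hpp
  obtain ⟨p, k, hp, hk, hpk⟩ := hpp
  rcases Nat.lt_or_ge k 2 with h | h
  · have hk1 : k = 1 := by omega
    subst hk1
    rw [pow_one] at hpk
    subst hpk
    have := hl p hp hmod
    linarith
  · exact hb ⟨n, hn, hmod, p, k, hp, h, hpk.symm⟩

lemma ev_sizes2 (ε : ℝ) (hε : 0 < ε) : ∀ᶠ P : ℝ in atTop, 16 ≤ P ∧ 4 ≤ Real.log P ∧
    Real.sqrt (Real.log P) ≤ ε / 2 * Real.log P ∧ 32 * (Real.log P) ^ 2 ≤ P ^ (ε / 2) := by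
  have hlog := (isLittleO_log_rpow_atTop (show (0 : ℝ) < ε / 8 by positivity)).def
      (show (0 : ℝ) < 1 by norm_num)
  filter_upwards [eventually_ge_atTop (16 : ℝ), Real.tendsto_log_atTop.eventually_ge_atTop 4,
    Real.tendsto_log_atTop.eventually_ge_atTop ((2 / ε) ^ 2), hlog,
    (tendsto_rpow_atTop (show (0 : ℝ) < ε / 4 by positivity)).eventually_ge_atTop 32]
    with P h1 h2 h3 h4 h5
  have hP0 : 0 < P := by linarith
  have hl0 : 0 ≤ Real.log P := by linarith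
  refine ⟨h1, h2, ?_, ?_⟩
  · have g1 : 2 / ε ≤ Real.sqrt (Real.log P) := Real.le_sqrt_of_sq_le h3
    have g2 : Real.sqrt (Real.log P) * Real.sqrt (Real.log P) = Real.log P :=
      Real.mul_self_sqrt hl0
    have g3 : 0 ≤ Real.sqrt (Real.log P) := Real.sqrt_nonneg _
    rw [div_le_iff₀ hε] at g1
    nlinarith
  · rw [Real.norm_eq_abs, abs_of_nonneg hl0, Real.norm_eq_abs,
      abs_of_nonneg (Real.rpow_nonneg hP0.le _), one_mul] at h4
    have b1 : (Real.log P) ^ 2 ≤ P ^ (ε / 4) := by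
      calc (Real.log P) ^ 2 ≤ (P ^ (ε / 8)) ^ 2 := pow_le_pow_left₀ hl0 h4 2
        _ = P ^ (ε / 4) := by
            rw [← Real.rpow_natCast, ← Real.rpow_mul hP0.le]
            congr 1
            push_cast
            ring
    calc 32 * (Real.log P) ^ 2 ≤ P ^ (ε / 4) * P ^ (ε / 4) :=
          mul_le_mul h5 b1 (by positivity) (by positivity)
      _ = P ^ (ε / 2) := by rw [← Real.rpow_add hP0]; congr 1; ring

/-- families of classes with small Fourier coefficients and small multiplicities -/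
theorem fam_nopp (ε c : ℝ) (hε : 0 < ε) (hc : 0 < c) (hc1 : c ≤ 1) : ∃ C : ℝ, 1 ≤ C ∧
    ∃ P₀ : ℝ, ∀ (P : ℕ) [Fact P.Prime], P₀ ≤ P → ∀ lam : ℝ, 1 ≤ lam →
    Real.exp (C * lam) ≤ Real.log P →
    ∀ (ι : Type) (s : Finset ι) (v : ι → ZMod P),
    (∀ a : ZMod P, ((s.filter (fun i => v i = a)).card : ℝ) ≤ s.card * (P : ℝ) ^ (-(1 / 2 + ε))) →
    (∀ h : ZMod P, h ≠ 0 → ‖∑ i ∈ s, (ZMod.stdAddChar (h * v i) : ℂ)‖ ≤
      s.card * (P : ℝ) ^ (-c)) →
    (s.card : ℝ) * Real.exp (-Real.exp (C * lam)) ≤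
      ((s.filter (fun i => NoPPc P (lam * P * Real.log P) (v i))).card : ℝ) := by
  obtain ⟨C, κ, hC, hκ, P₁, hfam⟩ := fam 1 le_rfl c hc hc1
  obtain ⟨P₂, hP₂⟩ := eventually_atTop.1 (ev_sizes2 ε hε)
  refine ⟨2 * C, by linarith, max P₁ P₂, ?_⟩
  intro P _ hP lam hlam hlamP ι s v hs hF
  obtain ⟨hP16, hlog4, hsq, hpw⟩ := hP₂ P ((le_max_right _ _).trans hP)
  have hP0 : (0 : ℝ) < P := by linarith
  have hlog0 : 0 < Real.log P := by linarith
  have hCl : 0 < C * lam := by positivity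
  have hexp : Real.exp (C * lam) ≤ Real.sqrt (Real.log P) := by
    apply Real.le_sqrt_of_sq_le
    refine le_trans (le_of_eq ?_) hlamP
    rw [sq, ← Real.exp_add]
    congr 1
    ring
  have hexp2 : Real.exp (C * lam) ≤ Real.log P :=
    (Real.exp_le_exp.2 (by linarith)).trans hlamP
  have h1 := (hfam P ((le_max_left _ _).trans hP) ι s (fun i _ => v i) (by
    intro h hh
    have hh0 : h 0 ≠ 0 := by
      intro h0
      apply hh
      funext j
      rw [Subsingleton.elim j 0, h0]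
      rfl
    refine le_trans (le_of_eq ?_) (hF (h 0) hh0)
    congr 1
    exact sum_congr rfl fun a _ => by rw [Fin.sum_univ_one])).1 lam hlam hexp2
  obtain ⟨Z, hZ⟩ : ∃ Z : ℝ, Z = lam * P * Real.log P := ⟨_, rfl⟩
  rw [← hZ] at h1 ⊢
  have hZ0 : 0 ≤ Z := by rw [hZ]; positivity
  have hlamlog : lam ≤ Real.log P := by
    have h2 : C * lam + 1 ≤ Real.exp (C * lam) := Real.add_one_le_exp _
    have h3 : lam ≤ C * lam := by nlinarith
    linarith
  have hZ2 : Z ≤ P * (Real.log P) ^ 2 := by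
    rw [hZ]
    have := mul_le_mul_of_nonneg_right hlamlog (show 0 ≤ (P : ℝ) * Real.log P by positivity)
    linarith [mul_assoc lam (P : ℝ) (Real.log P), sq (Real.log P),
      mul_assoc (P : ℝ) (Real.log P) (Real.log P), mul_left_comm (Real.log P) (P : ℝ) (Real.log P)]
  have hlogP : Real.log P ≤ P := (Real.log_le_sub_one_of_pos hP0).trans (by linarith)
  -- the prime powers
  set bad : ZMod P → Prop := fun a => ∃ n : ℕ, (n : ℝ) ≤ Z ∧ (n : ZMod P) = a ∧
      ∃ p k : ℕ, p.Prime ∧ 2 ≤ k ∧ n = p ^ k with hbaddef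
  have hbad := bad_classes P Z hZ0 (univ : Finset (ZMod P))
  have hsqZ : Real.sqrt Z + 1 ≤ 2 * (Real.sqrt P * Real.log P) := by
    have h2 : Real.sqrt Z ≤ Real.sqrt P * Real.log P := by
      calc Real.sqrt Z ≤ Real.sqrt (P * (Real.log P) ^ 2) := Real.sqrt_le_sqrt hZ2
        _ = Real.sqrt P * Real.log P := by
            rw [Real.sqrt_mul hP0.le, Real.sqrt_sq hlog0.le]
    have h3 : (1 : ℝ) ≤ Real.sqrt P := by
      rw [Real.one_le_sqrt]; linarith
    nlinarith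
  have hKlog : ((Nat.log 2 ⌊Z⌋₊ : ℕ) : ℝ) + 1 ≤ 8 * Real.log P := by
    have h4 : ((Nat.log 2 ⌊Z⌋₊ : ℕ) : ℝ) ≤ 3 * Real.log P / Real.log 2 := by
      by_cases hz : ⌊Z⌋₊ = 0
      · rw [hz]
        simp
        positivity
      have h5 : 2 ^ (Nat.log 2 ⌊Z⌋₊) ≤ ⌊Z⌋₊ := Nat.pow_log_le_self 2 hz
      have h6 : (2 : ℝ) ^ (Nat.log 2 ⌊Z⌋₊) ≤ (P : ℝ) ^ 3 := by
        calc (2 : ℝ) ^ (Nat.log 2 ⌊Z⌋₊) ≤ ⌊Z⌋₊ := by exact_mod_cast h5
          _ ≤ Z := Nat.floor_le hZ0
          _ ≤ P * (Real.log P) ^ 2 := hZ2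
          _ ≤ P * (P : ℝ) ^ 2 := mul_le_mul_of_nonneg_left (pow_le_pow_left₀ hlog0.le hlogP 2) hP0.le
          _ = _ := by ring
      have h7 := Real.log_le_log (by positivity) h6
      rw [Real.log_pow, Real.log_pow] at h7
      rw [le_div_iff₀ (Real.log_pos (by norm_num))]
      push_cast at h7
      exact h7
    have h5 := Real.log_two_gt_d9
    have h6 : 3 * Real.log P / Real.log 2 ≤ 5 * Real.log P := by
      rw [div_le_iff₀ (by linarith)]
      nlinarith
    linarith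
  have hmem : ((s.filter (fun i => bad (v i))).card : ℝ) ≤
      (((univ : Finset (ZMod P)).filter bad).card : ℝ) * (s.card * (P : ℝ) ^ (-(1 / 2 + ε))) := by
    have h2 : (s.filter (fun i => bad (v i))).card ≤
        ∑ a ∈ (univ : Finset (ZMod P)).filter bad, (s.filter (fun i => v i = a)).card := by
      have h3 : s.filter (fun i => bad (v i)) ⊆
          ((univ : Finset (ZMod P)).filter bad).biUnion fun a => s.filter (fun i => v i = a) := by
        intro i hi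
        obtain ⟨hi1, hi2⟩ := mem_filter.1 hi
        rw [mem_biUnion]
        exact ⟨v i, mem_filter.2 ⟨mem_univ _, hi2⟩, mem_filter.2 ⟨hi1, rfl⟩⟩
      exact (card_le_card h3).trans card_biUnion_le
    calc ((s.filter (fun i => bad (v i))).card : ℝ) ≤
        ∑ a ∈ (univ : Finset (ZMod P)).filter bad, ((s.filter (fun i => v i = a)).card : ℝ) := by
          exact_mod_cast h2
      _ ≤ ∑ a ∈ (univ : Finset (ZMod P)).filter bad, (s.card * (P : ℝ) ^ (-(1 / 2 + ε))) :=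
          sum_le_sum fun a _ => hs a
      _ = _ := by rw [sum_const, nsmul_eq_mul]
  have hbad2 : ((s.filter (fun i => bad (v i))).card : ℝ) ≤
      1 / 2 * (s.card * (P : ℝ) ^ (-(ε / 2))) := by
    have h0 : (((univ : Finset (ZMod P)).filter bad).card : ℝ) ≤
        1 / 2 * (Real.sqrt P * (P : ℝ) ^ (ε / 2)) := by
      calc _ ≤ (Real.sqrt Z + 1) * (Nat.log 2 ⌊Z⌋₊ + 1) := hbad
        _ ≤ (2 * (Real.sqrt P * Real.log P)) * (8 * Real.log P) :=
            mul_le_mul hsqZ hKlog (by positivity) (by positivity)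
        _ = 1 / 2 * (Real.sqrt P * (32 * (Real.log P) ^ 2)) := by ring
        _ ≤ 1 / 2 * (Real.sqrt P * (P : ℝ) ^ (ε / 2)) := by
            apply mul_le_mul_of_nonneg_left _ (by norm_num)
            exact mul_le_mul_of_nonneg_left hpw (Real.sqrt_nonneg _)
    calc _ ≤ _ := hmem
      _ ≤ (1 / 2 * (Real.sqrt P * (P : ℝ) ^ (ε / 2))) * (s.card * (P : ℝ) ^ (-(1 / 2 + ε))) :=
          mul_le_mul_of_nonneg_right h0 (by positivity)
      _ = 1 / 2 * (s.card * ((P : ℝ) ^ (1 / 2 : ℝ) * (P : ℝ) ^ (ε / 2) *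
          (P : ℝ) ^ (-(1 / 2 + ε)))) := by
          rw [Real.sqrt_eq_rpow]; ring
      _ = 1 / 2 * (s.card * (P : ℝ) ^ (-(ε / 2))) := by
          rw [← Real.rpow_add hP0, ← Real.rpow_add hP0]
          congr 3
          ring
  have hPow : (P : ℝ) ^ (-(ε / 2)) ≤ Real.exp (-Real.exp (C * lam)) := by
    rw [Real.rpow_def_of_pos hP0]
    apply Real.exp_le_exp.2
    have := hexp.trans hsq
    linarith
  -- the late classes
  have hsub : s.filter (fun i => ∀ _ : Fin 1, LateC P Z (v i)) ⊆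
      s.filter (fun i => NoPPc P Z (v i)) ∪ s.filter (fun i => bad (v i)) := by
    intro a ha
    obtain ⟨ha1, ha2⟩ := mem_filter.1 ha
    rw [mem_union, mem_filter, mem_filter]
    by_cases h : bad (v a)
    · exact Or.inr ⟨ha1, h⟩
    · exact Or.inl ⟨ha1, noppc_of P (v a) Z (ha2 0) h⟩
  have h5 := (card_le_card hsub).trans (card_union_le _ _)
  have h6 : ((s.filter (fun i => ∀ _ : Fin 1, LateC P Z (v i))).card : ℝ) ≤
      ((s.filter (fun i => NoPPc P Z (v i))).card : ℝ) +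
      ((s.filter (fun i => bad (v i))).card : ℝ) := by exact_mod_cast h5
  have h7 : (s.card : ℝ) * (P : ℝ) ^ (-(ε / 2)) ≤ s.card * Real.exp (-Real.exp (C * lam)) :=
    mul_le_mul_of_nonneg_left hPow (Nat.cast_nonneg _)
  have h8 : Real.exp (-Real.exp (2 * C * lam)) ≤ 1 / 2 * Real.exp (-Real.exp (C * lam)) := by
    have g1 : Real.exp (2 * C * lam) = Real.exp (C * lam) * Real.exp (C * lam) := by
      rw [← Real.exp_add]; congr 1; ring
    have g2 : C * lam + 1 ≤ Real.exp (C * lam) := Real.add_one_le_exp _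
    have g3 : 1 ≤ C * lam := by nlinarith
    have g4 : Real.exp (C * lam) + 1 ≤ Real.exp (2 * C * lam) := by
      rw [g1]; nlinarith
    have g5 : Real.exp (-Real.exp (2 * C * lam)) ≤ Real.exp (-Real.exp (C * lam) + -1) :=
      Real.exp_le_exp.2 (by linarith)
    rw [Real.exp_add] at g5
    have g6 : Real.exp (-1 : ℝ) ≤ 1 / 2 := by
      rw [Real.exp_neg, ← one_div]
      apply one_div_le_one_div_of_le (by norm_num)
      have := Real.exp_one_gt_d9
      linarith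
    calc _ ≤ _ := g5
      _ ≤ Real.exp (-Real.exp (C * lam)) * (1 / 2) :=
          mul_le_mul_of_nonneg_left g6 (Real.exp_pos _).le
      _ = _ := by ring
  have h9 : (s.card : ℝ) * Real.exp (-Real.exp (2 * C * lam)) ≤
      s.card * (1 / 2 * Real.exp (-Real.exp (C * lam))) :=
    mul_le_mul_of_nonneg_left h8 (Nat.cast_nonneg _)
  linarith

end Pool.Agent.T2h81.HV
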