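import Pool.Agent.T2h81.HV.V4

set_option autoImplicit false
set_option linter.unusedSectionVars false
set_option linter.unusedVariables false
set_option maxHeartbeats 4000000

/-! # Dilates and cosets: classes without small prime powers -/

namespace Pool.Agent.T2h81.HV

open Finset Filter
open Pool.Agent.T2h81.LD (bias_products bias_cosets)
open Pool.Agent.W147.PS (ev_pow)

open scoped Classical

/-- bilinear families with one linear variable -/
theorem dil_core (ε : ℝ) (hε : 0 < ε) (hε1 : ε ≤ 1) : ∃ C : ℝ, 1 ≤ C ∧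
    ∃ P₀ : ℝ, ∀ (P : ℕ) [Fact P.Prime], P₀ ≤ P → ∀ lam : ℝ, 1 ≤ lam →
    Real.exp (C * lam) ≤ Real.log P →
    ∀ A B : Finset (ZMod P), (P : ℝ) ^ (1 + ε) ≤ A.card * B.card → (∀ a ∈ A, a ≠ 0) →
    ∀ g : ZMod P → ZMod P,
    ((P : ℝ) ^ (1 / 2 + ε) ≤ B.card ∨ ((∀ b ∈ B, b ≠ 0) ∧ ∀ a ∈ A, g a = 0)) →
    ((A.card * B.card : ℕ) : ℝ) * Real.exp (-Real.exp (C * lam)) ≤
      ∑ a ∈ A, ((B.filter (fun b => NoPPc P (lam * P * Real.log P) (a * b + g a))).card : ℝ) := by
  obtain ⟨C, hC, P₁, hfam⟩ := fam_nopp (ε / 2) (ε / 4) (by positivity) (by positivity) (by linarith)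
  obtain ⟨P₂, hbias⟩ := bias_products 1 le_rfl ε hε hε1
  refine ⟨C, hC, max (max P₁ P₂) 1, ?_⟩
  intro P _ hP lam hlam hlamP A B hAB hA g hB
  have hP1 : P₁ ≤ P := (le_max_left _ _).trans ((le_max_left _ _).trans hP)
  have hP2 : P₂ ≤ P := (le_max_right _ _).trans ((le_max_left _ _).trans hP)
  have hPge : (1 : ℝ) ≤ P := (le_max_right _ _).trans hP
  have hP0 : (0 : ℝ) < P := by linarith
  have hAB0 : (0 : ℝ) < A.card * B.card := lt_of_lt_of_le (Real.rpow_pos_of_pos hP0 _) hAB
  have hA0 : (0 : ℝ) < A.card := by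
    rcases (Nat.cast_nonneg (α := ℝ) A.card).eq_or_lt with h | h
    · rw [← h, zero_mul] at hAB0
      exact absurd hAB0 (lt_irrefl _)
    · exact h
  have hB0 : (0 : ℝ) < B.card := by
    rcases (Nat.cast_nonneg (α := ℝ) B.card).eq_or_lt with h | h
    · rw [← h, mul_zero] at hAB0
      exact absurd hAB0 (lt_irrefl _)
    · exact h
  have h1 := hfam P hP1 lam hlam hlamP (ZMod P × ZMod P) (A ×ˢ B) (fun w => w.1 * w.2 + g w.1) ?_ ?_
  · rw [card_product] at h1
    refine h1.trans (le_of_eq ?_)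
    have h2 : ((A ×ˢ B).filter (fun w : ZMod P × ZMod P =>
        NoPPc P (lam * P * Real.log P) (w.1 * w.2 + g w.1))).card =
        ∑ a ∈ A, (B.filter (fun b => NoPPc P (lam * P * Real.log P) (a * b + g a))).card := by
      simp_rw [card_filter]
      rw [sum_product]
    rw [h2]
    push_cast
    rfl
  · -- multiplicities
    intro c
    have hleA : ((A ×ˢ B).filter (fun w : ZMod P × ZMod P => w.1 * w.2 + g w.1 = c)).card ≤
        A.card := by
      apply card_le_card_of_injOn (fun w => w.1)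
      · intro w hw
        exact (mem_product.1 (mem_filter.1 hw).1).1
      · intro w hw w' hw' hww
        obtain ⟨hw1, hw2⟩ := mem_filter.1 hw
        obtain ⟨hw1', hw2'⟩ := mem_filter.1 hw'
        have hww' : w.1 = w'.1 := hww
        have ha : w.1 ≠ 0 := hA _ (mem_product.1 hw1).1
        have h3 : w.1 * w.2 = w.1 * w'.2 := by
          have e1 : w.1 * w.2 = c - g w.1 := by rw [← hw2]; ring
          have e2 : w'.1 * w'.2 = c - g w'.1 := by rw [← hw2']; ring
          rw [e1, hww', ← e2]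
        exact Prod.ext hww' (mul_left_cancel₀ ha h3)
    rw [card_product]
    push_cast
    rcases hB with hB | ⟨hB, hg⟩
    · have h4 : (((A ×ˢ B).filter (fun w : ZMod P × ZMod P => w.1 * w.2 + g w.1 = c)).card : ℝ) ≤
          A.card := by exact_mod_cast hleA
      refine h4.trans ?_
      calc (A.card : ℝ) = A.card * 1 := (mul_one _).symm
        _ ≤ A.card * (B.card * (P : ℝ) ^ (-(1 / 2 + ε / 2))) := by
            apply mul_le_mul_of_nonneg_left _ hA0.le
            calc (1 : ℝ) ≤ (P : ℝ) ^ (ε / 2) := Real.one_le_rpow hPge (by positivity)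
              _ = (P : ℝ) ^ (1 / 2 + ε) * (P : ℝ) ^ (-(1 / 2 + ε / 2)) := by
                  rw [← Real.rpow_add hP0]; congr 1; ring
              _ ≤ _ := mul_le_mul_of_nonneg_right hB (by positivity)
        _ = _ := by ring
    · have hleB : ((A ×ˢ B).filter (fun w : ZMod P × ZMod P => w.1 * w.2 + g w.1 = c)).card ≤
          B.card := by
        apply card_le_card_of_injOn (fun w => w.2)
        · intro w hw
          exact (mem_product.1 (mem_filter.1 hw).1).2
        · intro w hw w' hw' hww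
          obtain ⟨hw1, hw2⟩ := mem_filter.1 hw
          obtain ⟨hw1', hw2'⟩ := mem_filter.1 hw'
          have hww' : w.2 = w'.2 := hww
          have hb : w.2 ≠ 0 := hB _ (mem_product.1 hw1).2
          rw [hg _ (mem_product.1 hw1).1, add_zero] at hw2
          rw [hg _ (mem_product.1 hw1').1, add_zero] at hw2'
          have h3 : w.1 * w.2 = w'.1 * w.2 := by
            rw [hw2, hww', hw2']
          exact Prod.ext (mul_right_cancel₀ hb h3) hww'
      have key : ∀ a b : ℝ, 0 < a → 0 < b → (P : ℝ) ^ (1 + ε) ≤ a * b → b ≤ a →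
          b ≤ a * b * (P : ℝ) ^ (-(1 / 2 + ε / 2)) := by
        intro a b ha hb hab hba
        have h5 : (P : ℝ) ^ (1 / 2 + ε / 2) ≤ a := by
          apply Pool.Agent.T2h81.LD.le_of_sq_le_sq' _ ha.le
          calc ((P : ℝ) ^ (1 / 2 + ε / 2)) ^ 2 = (P : ℝ) ^ (1 + ε) := by
                rw [← Real.rpow_natCast, ← Real.rpow_mul hP0.le]
                congr 1
                push_cast
                ring
            _ ≤ a * b := hab
            _ ≤ a ^ 2 := by nlinarith
        have h6 : (1 : ℝ) ≤ a * (P : ℝ) ^ (-(1 / 2 + ε / 2)) := by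
          rw [Real.rpow_neg hP0.le, ← div_eq_mul_inv, le_div_iff₀ (by positivity), one_mul]
          exact h5
        calc b = b * 1 := (mul_one _).symm
          _ ≤ b * (a * (P : ℝ) ^ (-(1 / 2 + ε / 2))) := mul_le_mul_of_nonneg_left h6 hb.le
          _ = _ := by ring
      rcases le_total (B.card : ℝ) A.card with h | h
      · have h4 : (((A ×ˢ B).filter (fun w : ZMod P × ZMod P => w.1 * w.2 + g w.1 = c)).card : ℝ) ≤
            B.card := by exact_mod_cast hleB
        exact h4.trans (key _ _ hA0 hB0 hAB h)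
      · have h4 : (((A ×ˢ B).filter (fun w : ZMod P × ZMod P => w.1 * w.2 + g w.1 = c)).card : ℝ) ≤
            A.card := by exact_mod_cast hleA
        refine h4.trans ((key _ _ hB0 hA0 (by rw [mul_comm]; exact hAB) h).trans (le_of_eq ?_))
        ring
  · -- Fourier coefficients
    intro h hh
    have h2 := hbias P hP2 A B hAB (fun _ a => g a) (fun _ _ => 0) (fun _ => h) (by
      intro h0
      exact hh (congrFun h0 0))
    refine le_trans (le_of_eq ?_) h2
    congr 1
    refine sum_congr rfl fun w _ => ?_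
    rw [Fin.sum_univ_one]
    congr 1
    simp

/-- almost all dilates -/
theorem dilates (ε : ℝ) (hε : 0 < ε) (hε1 : ε ≤ 1) : ∃ C : ℝ, 1 ≤ C ∧
    ∃ P₀ : ℝ, ∀ (P : ℕ) [Fact P.Prime], P₀ ≤ P → ∀ lam : ℝ, 1 ≤ lam →
    Real.exp (C * lam) ≤ Real.log P →
    ∀ B : Finset (ZMod P), B.Nonempty → ∀ g : ZMod P → ZMod P,
    ((P : ℝ) ^ (1 / 2 + ε) ≤ B.card ∨ ((∀ b ∈ B, b ≠ 0) ∧ ∀ a, g a = 0)) →
    (((univ : Finset (ZMod P)).filter (fun a => a ≠ 0 ∧
      ((B.filter (fun b => NoPPc P (lam * P * Real.log P) (a * b + g a))).card : ℝ) <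
        B.card * Real.exp (-Real.exp (C * lam)))).card : ℝ) ≤ (P : ℝ) ^ (1 + ε) / B.card := by
  obtain ⟨C, hC, P₁, h⟩ := dil_core ε hε hε1
  refine ⟨C, hC, max P₁ 1, ?_⟩
  intro P _ hP lam hlam hlamP B hBn g hB
  have hP0 : (0 : ℝ) < P := by
    have := (le_max_right _ _).trans hP
    linarith
  have hBc : (0 : ℝ) < B.card := by exact_mod_cast hBn.card_pos
  obtain ⟨A, hA⟩ : ∃ A, A = (univ : Finset (ZMod P)).filter (fun a => a ≠ 0 ∧
      ((B.filter (fun b => NoPPc P (lam * P * Real.log P) (a * b + g a))).card : ℝ) <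
        B.card * Real.exp (-Real.exp (C * lam))) := ⟨_, rfl⟩
  rw [← hA, le_div_iff₀ hBc]
  by_contra hcon
  push Not at hcon
  have h1 := h P ((le_max_left _ _).trans hP) lam hlam hlamP A B hcon.le (by
    intro a ha
    rw [hA] at ha
    exact (mem_filter.1 ha).2.1) g (by
      rcases hB with h2 | ⟨h2, h3⟩
      · exact Or.inl h2
      · exact Or.inr ⟨h2, fun a _ => h3 a⟩)
  have hAn : A.Nonempty := by
    rw [nonempty_iff_ne_empty]
    intro h0
    rw [h0, card_empty, Nat.cast_zero, zero_mul] at hcon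
    have := Real.rpow_pos_of_pos hP0 (1 + ε)
    linarith
  have h2 : ∑ a ∈ A, ((B.filter (fun b => NoPPc P (lam * P * Real.log P) (a * b + g a))).card : ℝ) <
      ∑ a ∈ A, B.card * Real.exp (-Real.exp (C * lam)) := by
    apply sum_lt_sum_of_nonempty hAn
    intro a ha
    rw [hA] at ha
    exact (mem_filter.1 ha).2.2
  rw [sum_const, nsmul_eq_mul] at h2
  push_cast at h1
  linarith [mul_assoc (A.card : ℝ) (B.card : ℝ) (Real.exp (-Real.exp (C * lam)))]

/-- cosets of subgroups -/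
theorem cosets (ε : ℝ) (hε : 0 < ε) (hε1 : ε ≤ 1) : ∃ C : ℝ, 1 ≤ C ∧
    ∃ P₀ : ℝ, ∀ (P : ℕ) [Fact P.Prime], P₀ ≤ P → ∀ lam : ℝ, 1 ≤ lam →
    Real.exp (C * lam) ≤ Real.log P →
    ∀ (H : Subgroup (ZMod P)ˣ) (s : Finset (ZMod P)ˣ), (∀ h, h ∈ s ↔ h ∈ H) →
    (P : ℝ) ^ (1 / 2 + ε) ≤ s.card → ∀ x : ZMod P, x ≠ 0 →
    (s.card : ℝ) * Real.exp (-Real.exp (C * lam)) ≤
      ((s.filter (fun h : (ZMod P)ˣ => NoPPc P (lam * P * Real.log P) (x * (h : ZMod P)))).card : ℝ)
    := by
  obtain ⟨C, hC, P₁, hfam⟩ := fam_nopp ε (ε / 4) hε (by positivity) (by linarith)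
  obtain ⟨P₂, hbias⟩ := bias_cosets ε hε hε1
  refine ⟨C, hC, max (max P₁ P₂) 1, ?_⟩
  intro P _ hP lam hlam hlamP H s hs hcard x hx
  have hP1 : P₁ ≤ P := (le_max_left _ _).trans ((le_max_left _ _).trans hP)
  have hP2 : P₂ ≤ P := (le_max_right _ _).trans ((le_max_left _ _).trans hP)
  have hPge : (1 : ℝ) ≤ P := (le_max_right _ _).trans hP
  have hP0 : (0 : ℝ) < P := by linarith
  refine hfam P hP1 lam hlam hlamP _ s (fun h => x * (h : ZMod P)) ?_ ?_
  · intro c
    have h1 : (s.filter (fun h : (ZMod P)ˣ => x * (h : ZMod P) = c)).card ≤ 1 := by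
      rw [card_le_one]
      intro a ha b hb
      have h2 := (mem_filter.1 ha).2
      have h3 := (mem_filter.1 hb).2
      have h4 : x * (a : ZMod P) = x * (b : ZMod P) := by rw [h2, h3]
      exact Units.val_injective (mul_left_cancel₀ hx h4)
    have h2 : ((s.filter (fun h : (ZMod P)ˣ => x * (h : ZMod P) = c)).card : ℝ) ≤ 1 := by
      exact_mod_cast h1
    refine h2.trans ?_
    calc (1 : ℝ) = (P : ℝ) ^ (1 / 2 + ε) * (P : ℝ) ^ (-(1 / 2 + ε)) := by
          rw [← Real.rpow_add hP0, add_neg_cancel, Real.rpow_zero]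
      _ ≤ _ := mul_le_mul_of_nonneg_right hcard (by positivity)
  · intro h hh
    have hc : (P : ℝ) ^ (3 / 8 + ε) ≤ s.card := le_trans
      (Real.rpow_le_rpow_of_exponent_le hPge (by linarith)) hcard
    have h2 := hbias P hP2 H s hs hc x hx (fun _ => h) (by
      intro h0
      exact hh (congrFun h0 0))
    refine le_trans (le_of_eq ?_) h2
    congr 1
    refine sum_congr rfl fun w _ => ?_
    rw [Fin.sum_univ_one]

end Pool.Agent.T2h81.HV
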